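import Pool.Agent.V1157.KF.Defs
import Mathlib.Data.Real.Basic

/-!
# Radicals of height pairings: definitions
-/

open CategoryTheory AlgebraicGeometry

universe u v w

namespace Pool.Agent.V1157.KF

open Pool.Agent.H914 Pool.Agent.H914.VarClass Pool.Agent.H914.VarClass.Obj Pool.Agent.W492.BB

variable {k : Type u} [Field k] {𝒱 : VarClass k} {C : TheoryData.{u, v, 0} 𝒱 ℚ} {K : Type w}
  [Field K] (H : WeilTheoryData.{u, v, w} C K)

/-- Height pairings `⟨x, y⟩` of homologically trivial cycles `x`, `y` of the codimensions `m` and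
`n + 1 - m` on the varieties of dimension `n`, which are `ℚ`-linear in `x` and satisfy the
projection formulas for the morphisms between varieties of dimension `n`. -/
structure Heights (n m : ℕ) where
  /-- the height pairing -/
  ht : ∀ X : 𝒱.Obj, C.A X → C.A X → ℝ
  add_left : ∀ {X : 𝒱.Obj} {x x' y : C.A X}, X.dim = n → HomTriv H m x → HomTriv H m x' →
    HomTriv H (n + 1 - m) y → ht X (x + x') y = ht X x y + ht X x' y
  smul_left : ∀ {X : 𝒱.Obj} {x y : C.A X} (q : ℚ), X.dim = n → HomTriv H m x →
    HomTriv H (n + 1 - m) y → ht X (q • x) y = q * ht X x y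
  push_left : ∀ {X Y : 𝒱.Obj} (f : X ⟶ Y) {x : C.A X} {y : C.A Y}, X.dim = n → Y.dim = n →
    HomTriv H m x → HomTriv H (n + 1 - m) y → ht Y (C.down f x) y = ht X x (C.up f y)
  pull_left : ∀ {X Y : 𝒱.Obj} (f : X ⟶ Y) {x : C.A Y} {y : C.A X}, X.dim = n → Y.dim = n →
    HomTriv H m x → HomTriv H (n + 1 - m) y → ht X (C.up f x) y = ht Y x (C.down f y)

variable {H} {n m : ℕ} (h : Heights H n m)

/-- The homologically trivial cycle `x` of codimension `m` on `X` lies in the radical of the height
pairing. -/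
def InRadical (X : 𝒱.Obj) (x : C.A X) : Prop :=
  HomTriv H m x ∧ ∀ y : C.A X, HomTriv H (n + 1 - m) y → h.ht X x y = 0

/-- The height pairings on the varieties of dimension `n` have zero (left) radical. -/
def Nondegenerate : Prop := ∀ (X : 𝒱.Obj) (x : C.A X), X.dim = n → InRadical h X x → x = 0

/-- The radicals of the height pairings on the varieties of dimension `n` have dimension at most
`D`. -/
def RadicalAtMost (D : ℕ) : Prop := ∀ (X : 𝒱.Obj) (x : Fin (D + 1) → C.A X), X.dim = n →
  (∀ i, InRadical h X (x i)) → ∃ c : Fin (D + 1) → ℚ, c ≠ 0 ∧ ∑ i, c i • x i = 0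

/-- The actions of any two self-correspondences of degree zero on the radical commute. -/
def RadicalCommuting : Prop := ∀ (X : 𝒱.Obj) (A B : C.A (X.prod X)) (x : C.A X), X.dim = n →
  C.Deg n A → C.Deg n B → InRadical h X x → C.act A (C.act B x) = C.act B (C.act A x)

/-- The actions of any `d` self-correspondences of degree zero on the radical satisfy the
multilinear polynomial identity `∑ c(σ) W_{σ(1)} W_{σ(2)} ⋯ W_{σ(d)} = 0`, the sum over all
permutations `σ`. -/
def RadicalIdentity (d : ℕ) (c : Equiv.Perm (Fin d) → ℚ) : Prop :=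
  ∀ (X : 𝒱.Obj) (W : Fin d → C.A (X.prod X)) (x : C.A X), X.dim = n → (∀ i, C.Deg n (W i)) →
    InRadical h X x → ∑ σ, c σ • ops C (List.ofFn fun i => W (σ i)) x = 0

end Pool.Agent.V1157.KF
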