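import Pool.Agent.V1157.KF.Core
import Pool.Agent.V1157.KF.HDefs

/-!
# Radicals of height pairings
-/

open CategoryTheory AlgebraicGeometry

universe u v w

namespace Pool.Agent.V1157.KF

open Pool.Agent.H914 Pool.Agent.H914.VarClass Pool.Agent.H914.VarClass.Obj Pool.Agent.W492.BB
  Pool.Agent.W550.Corr Pool.Agent.TH133 Pool.Agent.Y148.BB

variable {k : Type u} [Field k] {𝒱 : VarClass k} {C : TheoryData.{u, v, 0} 𝒱 ℚ}
  [hC : IsChowProj C] {K : Type w} [Field K] {H : WeilTheoryData.{u, v, w} C K}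
  [hH : IsWeilProj H] {X Y : 𝒱.Obj} {n m : ℕ}

include hC hH in
lemma HomTriv.pull {f : X ⟶ Y} {y : C.A Y} (hy : HomTriv H m y) : HomTriv H m (C.pull f y) :=
  ⟨C.pull_mem f hy.1, by rw [H.cl_pull, hy.2, map_zero]⟩

include hC hH in
lemma HomTriv.push {f : X ⟶ Y} {x : C.A X} (hX : X.dim = n) (hY : Y.dim = n)
    (hx : HomTriv H m x) : HomTriv H m (C.push f x) :=
  ⟨gr_congr (by rw [hX, hY]; ring) (C.push_mem f hx.1), by rw [H.cl_push, hx.2, map_zero]⟩


include hC hH in
lemma radical_fam (h : Heights H n m) :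
    Fam H n m (fun X x => X.dim = n ∧ InRadical h X x) where
  triv hx := hx.2.1
  smul q hx := ⟨hx.1, ⟨Submodule.smul_mem _ q hx.2.1.1, by
    rw [Algebra.smul_def, map_mul, hx.2.1.2, mul_zero]⟩, fun y hy => by
      rw [h.smul_left q hx.1 hx.2.1 hy, hx.2.2 y hy, mul_zero]⟩
  pull f y hX hY hy := ⟨hX, hy.2.1.pull, fun z hz => by
    rw [h.pull_left f hX hY hy.2.1 hz]
    exact hy.2.2 _ (hz.push hX hY)⟩
  push f x hX hY hx := ⟨hY, hx.2.1.push hX hY, fun z hz => by
    rw [h.push_left f hX hY hx.2.1 hz]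
    exact hx.2.2 _ hz.pull⟩

/-- **Height pairings with bounded radicals are nondegenerate.** -/
theorem height_main (h : Heights H n m)
    (hP : ∀ (S : 𝒱.Obj) (N : ℕ), S.dim = n → HasPower C n N S) :
    List.TFAE [Nondegenerate h, ∃ D, RadicalAtMost h D, RadicalCommuting h,
      ∃ (d : ℕ) (c : Equiv.Perm (Fin d) → ℚ), c ≠ 0 ∧ RadicalIdentity h d c] := by
  tfae_have 1 → 2 := by
    intro h0
    refine ⟨0, fun X x hX hx => ⟨fun _ => 1, ?_, ?_⟩⟩
    · intro h1
      exact one_ne_zero (congrFun h1 0)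
    · apply Finset.sum_eq_zero
      intro i _
      rw [h0 X _ hX (hx i), smul_zero]
  tfae_have 2 → 1 := by
    rintro ⟨D, hD⟩ X x hX hx
    exact of_bounded (radical_fam h) hP
      (fun X x hX hx => hD X x hX (fun i => (hx i).2)) X x hX ⟨hX, hx⟩
  tfae_have 1 → 3 := by
    intro h0 X A B x hX _ _ hx
    rw [h0 X x hX hx, C.act_map_zero, C.act_map_zero, C.act_map_zero]
  tfae_have 3 → 4 := by
    intro h0
    refine ⟨2, fun σ => if σ = 1 then 1 else -1, ?_, ?_⟩
    · intro h1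
      have := congrFun h1 1
      simp at this
    · intro X W x hX hW hx
      exact identity_of_comm (R := fun X x => InRadical h X x) h0 X W x hX hW hx
  tfae_have 4 → 1 := by
    rintro ⟨d, c, hc, hI⟩ X x hX hx
    exact of_identity (radical_fam h) hP hc
      (fun X W x hX hW hx => hI X W x hX hW hx.2) X x hX ⟨hX, hx⟩
  tfae_finish

end Pool.Agent.V1157.KF
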