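import Pool.Agent.W492.BB.Defs

/-!
# Families of homologically trivial cycles: definitions
-/

open CategoryTheory AlgebraicGeometry

universe u v w

namespace Pool.Agent.V1157.KF

open Pool.Agent.H914 Pool.Agent.H914.VarClass Pool.Agent.H914.VarClass.Obj Pool.Agent.W492.BB

variable {k : Type u} [Field k] {𝒱 : VarClass k}

/-- For the variety `S` of dimension `n` there are a variety `V` of dimension `n`, morphisms
`p 0, …, p (N - 1) : V ⟶ S` of the same degree `κ ≠ 0` and a divisor class `a` on `S`, such that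
for `i ≠ j` the class `(p i, p j)_* [V]` on `S × S` is a rational multiple of
`(a × S + S × a) ^ n`. (For `n ≥ 1` and smooth projective varieties over a field: `a` is very ample
and `V ⊆ S^N` is a suitable complete intersection of `(N - 1) n` divisors in multiples of the class
of the sum of the pull-backs of `a`, by the theorems of Bertini.) -/
def HasPower (C : TheoryData.{u, v, 0} 𝒱 ℚ) (n N : ℕ) (S : 𝒱.Obj) : Prop :=
  ∃ (V : 𝒱.Obj) (p : ℕ → (V ⟶ S)) (a : C.A S) (c κ : ℚ), V.dim = n ∧ C.Deg 1 a ∧ κ ≠ 0 ∧
    (∀ i < N, C.down (p i) 1 = κ • (1 : C.A S)) ∧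
    ∀ i < N, ∀ j < N, i ≠ j → C.down (Obj.lift (p i) (p j)) 1 =
      c • (C.up (fst S S) a + C.up (snd S S) a) ^ n

/-- The composition of the actions of the correspondences in the list `W`, the first one acting
first. -/
noncomputable def ops (C : TheoryData.{u, v, 0} 𝒱 ℚ) {X : 𝒱.Obj} (W : List (C.A (X.prod X)))
    (x : C.A X) : C.A X :=
  W.foldl (fun s Γ => C.act Γ s) x

variable {C : TheoryData.{u, v, 0} 𝒱 ℚ} {K : Type w} [Field K] (H : WeilTheoryData.{u, v, w} C K)

/-- The class `x` is a homologically trivial cycle of codimension `m`. -/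
def HomTriv (m : ℕ) {X : 𝒱.Obj} (x : C.A X) : Prop := C.Deg m x ∧ H.cl x = 0

end Pool.Agent.V1157.KF
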