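import Pool.Agent.V1157.KF.Defs
import Pool.Agent.V1157.RC.Base

/-!
# Families of homologically trivial cycles: bounded families and polynomial identities
-/

open CategoryTheory AlgebraicGeometry

universe u v w

namespace Pool.Agent.V1157.KF

open Pool.Agent.H914 Pool.Agent.H914.VarClass Pool.Agent.H914.VarClass.Obj Pool.Agent.W492.BB
  Pool.Agent.W550.Corr Pool.Agent.TH133 Pool.Agent.Y148.BB
open Pool.Agent.V1157.RC (graph_mem cog_gr pow_eq_sum pow_mem' act_smul' push_pull_of)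

set_option linter.unusedSectionVars false

variable {k : Type u} [Field k] {𝒱 : VarClass k} {C : TheoryData.{u, v, 0} 𝒱 ℚ}
  [hC : IsChowProj C] {K : Type w} [Field K] {H : WeilTheoryData.{u, v, w} C K}
  [hH : IsWeilProj H] {S V X Y U : 𝒱.Obj} {n m : ℕ}

include hC

/-- A family of subspaces of the spaces of homologically trivial cycles of codimension `m`, stable
under pull-backs and push-forwards between varieties of dimension `n`. -/
structure Fam (H : WeilTheoryData.{u, v, w} C K) (n m : ℕ) (R : ∀ X : 𝒱.Obj, C.A X → Prop) :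
    Prop where
  triv : ∀ {X : 𝒱.Obj} {x : C.A X}, R X x → HomTriv H m x
  smul : ∀ {X : 𝒱.Obj} {x : C.A X} (q : ℚ), R X x → R X (q • x)
  pull : ∀ {X Y : 𝒱.Obj} (f : X ⟶ Y) {y : C.A Y}, X.dim = n → Y.dim = n → R Y y →
    R X (C.pull f y)
  push : ∀ {X Y : 𝒱.Obj} (f : X ⟶ Y) {x : C.A X}, X.dim = n → Y.dim = n → R X x →
    R Y (C.push f x)

/-- Decomposable correspondences kill homologically trivial cycles. -/
lemma act_ext_triv [hH : IsWeilProj H] (hX : X.dim = n) {i : ℕ} {a : C.A X} {b : C.A Y}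
    (ha : C.Deg i a) {x : C.A X} (hx : HomTriv H m x) : C.act (C.ext a b) x = 0 := by
  by_cases h : i + m = n
  · have h1 : C.Deg X.dim (a * x) := gr_congr (by rw [hX, ← h]; push_cast; ring)
      (C.mul_mem ha hx.1)
    have h2 : HasDegree C (a * x) 0 := hasDegree_zero_of_cl H h1
      (by rw [map_mul, hx.2, mul_zero])
    rw [act_ext' h2, zero_smul]
  · refine act_ext_zero_of_lt (i := (i : ℤ) + m) (C.mul_mem ha hx.1) ?_
    rw [hX]
    intro h1
    apply h
    omega

lemma act_pow_triv [hH : IsWeilProj H] (hX : X.dim = n) {a : C.A X} {b : C.A Y}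
    (ha : a ∈ C.gr X 1) (c : ℚ) {x : C.A X} (hx : HomTriv H m x) :
    C.act (c • (C.pull (fst X Y) a + C.pull (snd X Y) b) ^ n) x = 0 := by
  rw [act_smul', pow_eq_sum, act_sum, Finset.sum_eq_zero, smul_zero]
  intro j hj
  rw [act_smul', act_ext_triv hX (pow_mem' ha j) hx, smul_zero]

/-- The data of `HasPower`. -/
structure Pw (C : TheoryData.{u, v, 0} 𝒱 ℚ) (n N : ℕ) {S V : 𝒱.Obj} (p : ℕ → (V ⟶ S)) (a : C.A S)
    (c κ : ℚ) : Prop where
  dimS : S.dim = n
  dimV : V.dim = n
  ha : a ∈ C.gr S 1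
  hκ : κ ≠ 0
  pp : ∀ i < N, C.push (p i) 1 = κ • (1 : C.A S)
  pq : ∀ i < N, ∀ j < N, i ≠ j → C.push (Obj.lift (p i) (p j)) 1 =
    c • (C.pull (fst S S) a + C.pull (snd S S) a) ^ n

omit hC in
lemma exists_pw {N : ℕ} (hS : S.dim = n) (hP : HasPower C n N S) :
    ∃ (V : 𝒱.Obj) (p : ℕ → (V ⟶ S)) (a : C.A S) (c κ : ℚ), Pw C n N p a c κ := by
  obtain ⟨V, p, a, c, κ, h1, h2, h3, h4, h5⟩ := hP
  exact ⟨V, p, a, c, κ, ⟨hS, h1, h2, h3, h4, h5⟩⟩

/-- The correspondence `q^* p_*` -/
noncomputable def mt (C : TheoryData.{u, v, 0} 𝒱 ℚ) {S V : 𝒱.Obj} (p q : V ⟶ S) :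
    C.A (V.prod V) := C.comp (C.graph p) (C.cograph q)

lemma act_mt (p q : V ⟶ S) (s : C.A V) : C.act (mt C p q) s = C.pull q (C.push p s) := by
  rw [mt, C.act_comp, C.act_graph, C.act_cograph]

lemma mt_mem (hS : S.dim = n) (hV : V.dim = n) (p q : V ⟶ S) : mt C p q ∈ C.gr (V.prod V) n := by
  have g1 : C.graph p ∈ C.gr (V.prod S) (V.dim + 0) :=
    gr_congr (by rw [hS, hV]; ring) (graph_mem p)
  have g2 : C.cograph q ∈ C.gr (S.prod V) (S.dim + 0) :=
    gr_congr (by ring) (cograph_mem q)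
  exact gr_congr (by rw [hV]; ring) (comp_mem C g1 g2)

omit hC in
lemma ops_cons (Γ : C.A (X.prod X)) (W : List (C.A (X.prod X))) (x : C.A X) :
    ops C (Γ :: W) x = ops C W (C.act Γ x) := rfl

lemma ops_zero (W : List (C.A (X.prod X))) : ops C W (0 : C.A X) = 0 := by
  induction W with
  | nil => rfl
  | cons Γ W ih => rw [ops_cons, C.act_map_zero, ih]

lemma ops_smul (W : List (C.A (X.prod X))) (q : ℚ) (x : C.A X) :
    ops C W (q • x) = q • ops C W x := by
  induction W generalizing x with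
  | nil => rfl
  | cons Γ W ih => rw [ops_cons, ops_cons, act_map_smul, ih]

section power

variable {N d : ℕ} {p : ℕ → (V ⟶ S)} {a : C.A S} {c κ : ℚ}

lemma Pw.push_pull_ne (h : Pw C n N p a c κ) (H : WeilTheoryData.{u, v, w} C K)
    [hH : IsWeilProj H] {i j : ℕ} (hi : i < N) (hj : j < N) (hij : i ≠ j) {x : C.A S}
    (hx : HomTriv H m x) : C.push (p j) (C.pull (p i) x) = 0 := by
  rw [← C.act_graph, ← C.act_cograph, ← C.act_comp, cog_gr, h.pq i hi j hj hij]
  exact act_pow_triv h.dimS h.ha c hx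

/-- Applying the staircase operators in an order different from the natural one gives zero. -/
lemma Pw.ops_ne (h : Pw C n (d + 1) p a c κ) (H : WeilTheoryData.{u, v, w} C K)
    [hH : IsWeilProj H] {x : C.A S} (hx : HomTriv H m x) (l : List (Fin d)) (e : ℕ) (he : e ≤ d)
    (hl : ¬ (∀ q : ℕ, ∀ hq : q < l.length, (l[q] : ℕ) = e + q)) :
    ops C (l.map fun i : Fin d => mt C (p i) (p (i + 1))) (C.pull (p e) x) = 0 := by
  induction l generalizing e with
  | nil => exact absurd (fun q hq => absurd hq (by simp)) hl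
  | cons i l ih =>
    rw [List.map_cons, ops_cons, act_mt]
    by_cases him : (i : ℕ) = e
    · subst him
      rw [push_pull_of (h.pp i (by omega)), map_smul, ops_smul, ih (i + 1) (by omega), smul_zero]
      intro hcon
      apply hl
      intro q hq
      cases q with
      | zero => rfl
      | succ q =>
        rw [List.getElem_cons_succ, hcon q (by simpa using hq)]
        ring
    · rw [h.push_pull_ne H (i := e) (j := i) (by omega) (by have := i.2; omega)
        (Ne.symm him) hx, map_zero, ops_zero]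

lemma Pw.ops_stair (h : Pw C n (d + 1) p a c κ) (x : C.A S) (f e : ℕ) (he : e + f = d)
    (l : List (Fin d)) (hle : l.length = f)
    (hl : ∀ q : ℕ, ∀ hq : q < l.length, (l[q] : ℕ) = e + q) :
    ops C (l.map fun i : Fin d => mt C (p i) (p (i + 1))) (C.pull (p e) x) =
      κ ^ f • C.pull (p d) x := by
  induction f generalizing e l with
  | zero =>
    rw [List.length_eq_zero_iff] at hle
    subst hle
    rw [add_zero] at he
    subst he
    rw [pow_zero, one_smul]
    rfl
  | succ f ih =>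
    obtain ⟨i, l', rfl⟩ := List.exists_cons_of_length_eq_add_one hle
    have h1 : (i : ℕ) = e := by
      have := hl 0 (by simp)
      simpa using this
    rw [List.map_cons, ops_cons, act_mt]
    rw [← h1, push_pull_of (h.pp i (by omega)), map_smul, ops_smul,
      ih (i + 1) (by omega) l' (by simpa using hle) (fun q hq => ?_), smul_smul, ← pow_succ']
    have := hl (q + 1) (by simpa using hq)
    rw [List.getElem_cons_succ] at this
    omega

end power

variable {R : ∀ X : 𝒱.Obj, C.A X → Prop}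

/-- Bounded families vanish. -/
theorem of_bounded [hH : IsWeilProj H] (hR : Fam H n m R)
    (hP : ∀ (S : 𝒱.Obj) (N : ℕ), S.dim = n → HasPower C n N S) {D : ℕ}
    (hD : ∀ (X : 𝒱.Obj) (x : Fin (D + 1) → C.A X), X.dim = n → (∀ i, R X (x i)) →
      ∃ c : Fin (D + 1) → ℚ, c ≠ 0 ∧ ∑ i, c i • x i = 0)
    (X : 𝒱.Obj) (x : C.A X) (hX : X.dim = n) (hx : R X x) : x = 0 := by
  obtain ⟨V, p, a, c, κ, h⟩ := exists_pw hX (hP X (D + 1) hX)
  obtain ⟨b, hb, hb2⟩ := hD V (fun i => C.pull (p i) x) h.dimV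
    (fun i => hR.pull (p i) h.dimV h.dimS hx)
  obtain ⟨i, hi⟩ : ∃ i, b i ≠ 0 := by
    by_contra hcon
    push Not at hcon
    exact hb (funext hcon)
  have h1 := congrArg (C.push (p i)) hb2
  rw [map_sum, map_zero, Finset.sum_eq_single i, map_smul, push_pull_of (h.pp i i.2),
    smul_smul] at h1
  · rw [← one_smul ℚ x, ← inv_mul_cancel₀ (mul_ne_zero hi h.hκ), mul_smul, h1, smul_zero]
  · intro j _ hj
    rw [map_smul, h.push_pull_ne H j.2 i.2 (fun e => hj (Fin.ext e)) (hR.triv hx), smul_zero]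
  · intro h0
    exact absurd (Finset.mem_univ i) h0

/-- A polynomial identity implies that the family vanishes. -/
theorem of_identity [hH : IsWeilProj H] (hR : Fam H n m R)
    (hP : ∀ (S : 𝒱.Obj) (N : ℕ), S.dim = n → HasPower C n N S) {d : ℕ}
    {c : Equiv.Perm (Fin d) → ℚ} (hc : c ≠ 0)
    (hI : ∀ (X : 𝒱.Obj) (W : Fin d → C.A (X.prod X)) (x : C.A X), X.dim = n →
      (∀ i, C.Deg n (W i)) → R X x → ∑ σ, c σ • ops C (List.ofFn fun i => W (σ i)) x = 0)
    (X : 𝒱.Obj) (x : C.A X) (hX : X.dim = n) (hx : R X x) : x = 0 := by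
  obtain ⟨V, p, a, b, κ, h⟩ := exists_pw hX (hP X (d + 1) hX)
  obtain ⟨σ, hσ⟩ : ∃ σ, c σ ≠ 0 := by
    by_contra hcon
    push Not at hcon
    exact hc (funext hcon)
  have h1 := hI V (fun i => mt C (p (σ⁻¹ i)) (p (σ⁻¹ i + 1))) (C.pull (p 0) x) h.dimV
    (fun i => mt_mem h.dimS h.dimV _ _) (hR.pull (p 0) h.dimV h.dimS hx)
  have e0 : ∀ τ : Equiv.Perm (Fin d), (List.ofFn fun i => mt C (p (σ⁻¹ (τ i)))
      (p (σ⁻¹ (τ i) + 1))) = (List.ofFn fun i => (σ⁻¹ * τ) i).map fun i : Fin d =>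
        mt C (p i) (p (i + 1)) := by
    intro τ
    rw [List.map_ofFn]
    rfl
  rw [Finset.sum_eq_single σ] at h1
  · rw [e0, inv_mul_cancel, h.ops_stair x d 0 (by omega) _ (by simp) (by intro q hq; simp),
      smul_smul] at h1
    have h2 : c σ * κ ^ d ≠ 0 := mul_ne_zero hσ (pow_ne_zero _ h.hκ)
    have h3 : C.pull (p d) x = 0 := by
      rw [← one_smul ℚ (C.pull (p d) x), ← inv_mul_cancel₀ h2, mul_smul, h1, smul_zero]
    have h4 := push_pull_of (h.pp d (by omega)) x
    rw [h3, map_zero] at h4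
    rw [← one_smul ℚ x, ← inv_mul_cancel₀ h.hκ, mul_smul, ← h4, smul_zero]
  · intro τ _ hτ
    rw [e0, h.ops_ne H (hR.triv hx) _ 0 (by omega), smul_zero]
    intro hcon
    apply hτ
    have h3 : σ⁻¹ * τ = 1 := by
      ext i
      have := hcon i (by simp)
      simpa using this
    rw [inv_mul_eq_one] at h3
    exact h3.symm
  · intro h0
    exact absurd (Finset.mem_univ σ) h0

/-- The case of the commutator. -/
lemma identity_of_comm (hcomm : ∀ (X : 𝒱.Obj) (A B : C.A (X.prod X)) (x : C.A X), X.dim = n →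
      C.Deg n A → C.Deg n B → R X x → C.act A (C.act B x) = C.act B (C.act A x)) :
    ∀ (X : 𝒱.Obj) (W : Fin 2 → C.A (X.prod X)) (x : C.A X), X.dim = n →
      (∀ i, C.Deg n (W i)) → R X x → ∑ σ : Equiv.Perm (Fin 2),
        (if σ = 1 then (1 : ℚ) else -1) • ops C (List.ofFn fun i => W (σ i)) x = 0 := by
  intro X W x hX hW hx
  have h1 := hcomm X (W 1) (W 0) x hX (hW 1) (hW 0) hx
  have h2 : (Finset.univ : Finset (Equiv.Perm (Fin 2))) = {1, Equiv.swap 0 1} := by decide
  have h3 : (1 : Equiv.Perm (Fin 2)) ≠ Equiv.swap 0 1 := by decide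
  rw [h2, Finset.sum_pair h3, if_pos rfl, if_neg h3.symm]
  simp only [List.ofFn_succ, List.ofFn_zero, Equiv.Perm.one_apply, one_smul, neg_smul,
    Equiv.swap_apply_left, Fin.succ_zero_eq_one, Equiv.swap_apply_right, ops, List.foldl_cons,
    List.foldl_nil, ← sub_eq_add_neg]
  exact sub_eq_zero.2 h1

end Pool.Agent.V1157.KF
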